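import Pool.Agent.W513.Defs

/-!
Blow-up at a point from its universal property.
-/

set_option autoImplicit false

open AlgebraicGeometry CategoryTheory Limits

namespace Pool.Agent.W488.BlowB

open Pool.Agent.W513 IsLocalRing

/-- a morphism from the spectrum of a local ring factors through the spectrum of a stalk -/
theorem factor_local {X : Scheme.{0}} {R : CommRingCat.{0}} [IsLocalRing R] (t : Spec R ⟶ X)
    (x : X) (hx : t (closedPoint R) = x) :
    ∃ f : X.presheaf.stalk x ⟶ R, Spec.map f ≫ X.fromSpecStalk x = t := by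
  subst hx
  exact ⟨Scheme.stalkClosedPointTo t, Scheme.Spec_stalkClosedPointTo_fromSpecStalk t⟩

theorem closedPoint_map {R S : CommRingCat.{0}} [IsLocalRing R] [IsLocalRing S] (f : R ⟶ S)
    [IsLocalHom f.hom] : Spec.map f (closedPoint S) = closedPoint R :=
  Spec_closedPoint

/-- ideals pulled back to points of an affine scheme over a local ring -/
theorem map_stalk {R : CommRingCat.{0}} {Y : Scheme.{0}} (y : Y) (φ : Y.presheaf.stalk y ⟶ R)
    (f : Spec R ⟶ Y) (hf : f = Spec.map φ ≫ Y.fromSpecStalk y) (w : Spec R) (hw : f w = y) :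
    (maximalIdeal (Y.presheaf.stalk (f w))).map (f.stalkMap w).hom =
      (maximalIdeal (Y.presheaf.stalk y)).map
        ((StructureSheaf.toStalk R w).hom.comp φ.hom) := by
  subst hw
  have h1 : Spec.map (f.stalkMap w) ≫ Y.fromSpecStalk (f w) =
      Spec.map (φ ≫ StructureSheaf.toStalk R w) ≫ Y.fromSpecStalk (f w) := by
    rw [Scheme.SpecMap_stalkMap_fromSpecStalk, Spec.map_comp, Category.assoc, ← hf,
      Spec.fromSpecStalk_eq']
    rfl
  have h2 := Spec.map_injective ((cancel_mono _).mp h1)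
  rw [h2]
  rfl

theorem invertible_vacuous {Y : Scheme.{0}} {y p : Y} (hy : IsClosed ({y} : Set Y)) (hp : p ≠ y)
    {W : Scheme.{0}} (g : W ⟶ Spec (Y.presheaf.stalk p)) :
    InvertiblePullback (g ≫ Y.fromSpecStalk p) y := by
  intro w hw
  exfalso
  have h1 : Y.fromSpecStalk p (g w) = y := hw
  have h2 : Y.fromSpecStalk p (g w) ∈ Set.range (Y.fromSpecStalk p) := ⟨_, rfl⟩
  rw [Scheme.range_fromSpecStalk, h1] at h2
  have h3 : y ⤳ p := h2
  have h4 : p ∈ closure ({y} : Set Y) := h3.mem_closure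
  rw [hy.closure_eq] at h4
  exact hp h4

theorem bijective_stalkMap {X Y : Scheme.{0}} {σ : X ⟶ Y} {y : Y} (hσ : IsBlowUpAt σ y)
    (hy : IsClosed ({y} : Set Y)) (x : X) (hx : σ x ≠ y) :
    Function.Bijective (σ.stalkMap x).hom := by
  obtain ⟨t, ht, -⟩ := hσ.universal _ (Y.fromSpecStalk (σ x)) (by
    have := invertible_vacuous hy hx (𝟙 (Spec (Y.presheaf.stalk (σ x))))
    rwa [Category.id_comp] at this)
  have ht' : t ≫ σ = Y.fromSpecStalk (σ x) := ht
  -- uniqueness
  have hk : X.fromSpecStalk x = Spec.map (σ.stalkMap x) ≫ t := by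
    have hsq := Scheme.SpecMap_stalkMap_fromSpecStalk σ (x := x)
    obtain ⟨t', -, ht2⟩ := hσ.universal _ (Spec.map (σ.stalkMap x) ≫ Y.fromSpecStalk (σ x))
      (invertible_vacuous hy hx _)
    have a1 := ht2 (X.fromSpecStalk x) hsq.symm
    have a2 := ht2 (Spec.map (σ.stalkMap x) ≫ t) (by simp only [Category.assoc, ht'])
    rw [a1, a2]
  have hcl : t (closedPoint (Y.presheaf.stalk (σ x))) = x := by
    have h1 := congrArg (fun q : Spec (X.presheaf.stalk x) ⟶ X =>
      q (closedPoint (X.presheaf.stalk x))) hk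
    have h2 : X.fromSpecStalk x (closedPoint (X.presheaf.stalk x)) =
      t (Spec.map (σ.stalkMap x) (closedPoint (X.presheaf.stalk x))) := h1
    rw [Scheme.fromSpecStalk_closedPoint, closedPoint_map] at h2
    exact h2.symm
  obtain ⟨τ, hτ⟩ := factor_local t x hcl
  have e1 : τ ≫ σ.stalkMap x = 𝟙 _ := by
    apply Spec.map_injective
    rw [Spec.map_comp, Spec.map_id, ← cancel_mono (X.fromSpecStalk x), Category.assoc, hτ, ← hk,
      Category.id_comp]
  have e2 : σ.stalkMap x ≫ τ = 𝟙 _ := by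
    apply Spec.map_injective
    rw [Spec.map_comp, Spec.map_id, ← cancel_mono (Y.fromSpecStalk (σ x)), Category.assoc,
      Scheme.SpecMap_stalkMap_fromSpecStalk, ← Category.assoc, hτ, ht', Category.id_comp]
  have f1 : ∀ a, (σ.stalkMap x).hom (τ.hom a) = a := fun a =>
    congrArg (fun q : X.presheaf.stalk x ⟶ X.presheaf.stalk x => q.hom a) e1
  have f2 : ∀ a, τ.hom ((σ.stalkMap x).hom a) = a := fun a =>
    congrArg (fun q : Y.presheaf.stalk (σ x) ⟶ Y.presheaf.stalk (σ x) => q.hom a) e2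
  exact ⟨Function.LeftInverse.injective f2, Function.RightInverse.surjective f1⟩

theorem toStalk_mem (R : CommRingCat.{0}) (w : PrimeSpectrum R) (u : R)
    (hu : u ∈ nonZeroDivisors R) :
    (StructureSheaf.toStalk R w).hom u ∈
      nonZeroDivisors ((Spec.structureSheaf R).presheaf.stalk w) := by
  have h1 : IsLocalization w.asIdeal.primeCompl ((Spec.structureSheaf R).presheaf.stalk w) :=
    (inferInstance : IsLocalization.AtPrime ((Spec.structureSheaf R).presheaf.stalk w) w.asIdeal)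
  exact IsLocalization.nonZeroDivisors_le_comap w.asIdeal.primeCompl
    ((Spec.structureSheaf R).presheaf.stalk w) hu

/-- the invertibility condition for a map from an affine scheme to the local scheme of `y` -/
theorem invertible_affine {R : CommRingCat.{0}} {Y : Scheme.{0}} (y : Y)
    (φ : Y.presheaf.stalk y ⟶ R) (u : R) (hu : u ∈ nonZeroDivisors R)
    (h : (maximalIdeal (Y.presheaf.stalk y)).map φ.hom = Ideal.span {u}) :
    InvertiblePullback (Spec.map φ ≫ Y.fromSpecStalk y) y := by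
  intro w hw
  refine ⟨(StructureSheaf.toStalk R w).hom u, ?_, ?_⟩
  · exact toStalk_mem R w u hu
  · rw [map_stalk y φ _ rfl w hw, ← Ideal.map_map, h, Ideal.map_span, Set.image_singleton]
    rfl

/-- The commutative algebra of a strict transform -/
theorem algebra_step {B A D : Type} [CommRing B] [CommRing A] [CommRing D] [IsDomain D]
    (s : B →+* A) (c : A →+* D) (v h₀ : B) (g : A)
    (hs : s h₀ = s v * g) (hker : RingHom.ker (c.comp s) = Ideal.span {h₀}) (hcg : c g = 0)
    (hfrac : ∀ a : A, ∃ P Q : Polynomial B, IsUnit (P.eval₂ s g) ∧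
      a * P.eval₂ s g = Q.eval₂ s g) :
    RingHom.ker c = Ideal.span {g} := by
  apply le_antisymm
  · intro a ha
    obtain ⟨P, Q, hP, hPQ⟩ := hfrac a
    rw [RingHom.mem_ker] at ha
    have h1 : c (Q.eval₂ s g) = 0 := by rw [← hPQ, map_mul, ha, zero_mul]
    have h2 : Q.eval₂ s g = g * (Q.divX.eval₂ s g) + s (Q.coeff 0) := by
      conv_lhs => rw [← Polynomial.divX_mul_X_add Q]
      rw [Polynomial.eval₂_add, Polynomial.eval₂_mul, Polynomial.eval₂_X, Polynomial.eval₂_C,
        mul_comm]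
    have h3 : c (s (Q.coeff 0)) = 0 := by
      have := h1
      rw [h2, map_add, map_mul, hcg, zero_mul, zero_add] at this
      exact this
    have h4 : Q.coeff 0 ∈ Ideal.span {h₀} := by
      rw [← hker, RingHom.mem_ker]
      exact h3
    obtain ⟨b, hb⟩ := Ideal.mem_span_singleton'.mp h4
    have h5 : Q.eval₂ s g ∈ Ideal.span {g} := by
      rw [h2, ← hb, map_mul, hs]
      exact Ideal.mem_span_singleton'.mpr ⟨Q.divX.eval₂ s g + s b * s v, by ring⟩
    rw [← hPQ] at h5
    exact (Ideal.mul_unit_mem_iff_mem _ hP).mp h5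
  · rw [Ideal.span_singleton_le_iff_mem, RingHom.mem_ker]
    exact hcg

/-- The local ring of a blow-up at a point where `v` generates the exceptional ideal is a
localisation of `B[g]`. -/
theorem frac_of_lift {X Y : Scheme.{0}} {σ : X ⟶ Y} (x : X) (hσ : IsBlowUpAt σ (σ x))
    (v h₀ : Y.presheaf.stalk (σ x)) (g : X.presheaf.stalk x)
    (hm : maximalIdeal (Y.presheaf.stalk (σ x)) = Ideal.span {v, h₀})
    (hs : (σ.stalkMap x).hom h₀ = (σ.stalkMap x).hom v * g)
    (hv : (σ.stalkMap x).hom v ∈ nonZeroDivisors (X.presheaf.stalk x))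
    (a : X.presheaf.stalk x) :
    ∃ P Q : Polynomial (Y.presheaf.stalk (σ x)), IsUnit (P.eval₂ (σ.stalkMap x).hom g) ∧
      a * P.eval₂ (σ.stalkMap x).hom g = Q.eval₂ (σ.stalkMap x).hom g := by
  -- the subring `B[g]`
  let R1 : Subring (X.presheaf.stalk x) :=
    (Polynomial.eval₂RingHom (σ.stalkMap x).hom g).range
  have hR1 : ∀ r : R1, ∃ P : Polynomial (Y.presheaf.stalk (σ x)),
      P.eval₂ (σ.stalkMap x).hom g = (r : X.presheaf.stalk x) := fun r => r.2
  have hB : ∀ b, (σ.stalkMap x).hom b ∈ R1 := fun b =>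
    ⟨Polynomial.C b, by simp⟩
  have hg : g ∈ R1 := ⟨Polynomial.X, by simp⟩
  let φ0 : Y.presheaf.stalk (σ x) →+* R1 := (σ.stalkMap x).hom.codRestrict R1 hB
  let φ : Y.presheaf.stalk (σ x) ⟶ CommRingCat.of R1 := CommRingCat.ofHom φ0
  let ψ : CommRingCat.of R1 ⟶ X.presheaf.stalk x := CommRingCat.ofHom R1.subtype
  have hφψ : φ ≫ ψ = σ.stalkMap x := by
    ext b
    rfl
  have hspan1 : (maximalIdeal (Y.presheaf.stalk (σ x))).map φ.hom = Ideal.span {φ0 v} := by
    rw [hm, Ideal.map_span, Set.image_pair]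
    apply le_antisymm
    · rw [Ideal.span_le]
      rintro z (rfl | rfl)
      · exact Ideal.subset_span rfl
      · refine Ideal.mem_span_singleton'.mpr ⟨⟨g, hg⟩, ?_⟩
        apply Subtype.ext
        change g * (σ.stalkMap x).hom v = (σ.stalkMap x).hom h₀
        rw [hs, mul_comm]
    · rw [Ideal.span_le]
      rintro z rfl
      exact Ideal.subset_span (Or.inl rfl)
  have hspan2 : (maximalIdeal (Y.presheaf.stalk (σ x))).map (σ.stalkMap x).hom =
      Ideal.span {(σ.stalkMap x).hom v} := by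
    rw [hm, Ideal.map_span, Set.image_pair]
    apply le_antisymm
    · rw [Ideal.span_le]
      rintro z (rfl | rfl)
      · exact Ideal.subset_span rfl
      · exact Ideal.mem_span_singleton'.mpr ⟨g, by rw [hs, mul_comm]⟩
    · rw [Ideal.span_le]
      rintro z rfl
      exact Ideal.subset_span (Or.inl rfl)
  have hnz1 : φ0 v ∈ nonZeroDivisors R1 := by
    rw [mem_nonZeroDivisors_iff_right]
    intro r hr
    apply Subtype.ext
    have h1 : (r : X.presheaf.stalk x) * (σ.stalkMap x).hom v = 0 := congrArg Subtype.val hr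
    exact (mem_nonZeroDivisors_iff_right.mp hv) _ h1
  obtain ⟨t, ht, -⟩ := hσ.universal (Spec (CommRingCat.of R1)) (Spec.map φ ≫ Y.fromSpecStalk (σ x))
    (invertible_affine (σ x) φ (φ0 v) hnz1 hspan1)
  have ht' : t ≫ σ = Spec.map φ ≫ Y.fromSpecStalk (σ x) := ht
  have hk : X.fromSpecStalk x = Spec.map ψ ≫ t := by
    obtain ⟨t', -, ht2⟩ := hσ.universal (Spec (X.presheaf.stalk x))
      (Spec.map (σ.stalkMap x) ≫ Y.fromSpecStalk (σ x))
      (invertible_affine (σ x) (σ.stalkMap x) _ hv hspan2)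
    have a1 := ht2 (X.fromSpecStalk x) (Scheme.SpecMap_stalkMap_fromSpecStalk σ (x := x)).symm
    have a2 := ht2 (Spec.map ψ ≫ t) (by
      simp only [Category.assoc, ht']
      rw [← Category.assoc, ← Spec.map_comp, hφψ])
    rw [a1, a2]
  -- localisation
  let 𝔫 : Ideal (CommRingCat.of R1) := (maximalIdeal (X.presheaf.stalk x)).comap ψ.hom
  have h𝔫 : 𝔫.IsPrime := Ideal.comap_isPrime ψ.hom (maximalIdeal (X.presheaf.stalk x))
  let ℓ : CommRingCat.of R1 ⟶ CommRingCat.of (Localization.AtPrime 𝔫) :=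
    CommRingCat.ofHom (algebraMap R1 (Localization.AtPrime 𝔫))
  have hun : ∀ q : 𝔫.primeCompl, IsUnit (ψ.hom q) := by
    intro q
    by_contra hq
    exact q.2 ((mem_maximalIdeal _).mpr hq)
  let ψ' : CommRingCat.of (Localization.AtPrime 𝔫) ⟶ X.presheaf.stalk x :=
    CommRingCat.ofHom (IsLocalization.lift (M := 𝔫.primeCompl) (g := ψ.hom) hun)
  have hℓψ : ℓ ≫ ψ' = ψ := by
    ext r
    exact IsLocalization.lift_eq (M := 𝔫.primeCompl) (g := ψ.hom) hun r
  have hcl : (Spec.map ℓ ≫ t) (closedPoint (Localization.AtPrime 𝔫)) = x := by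
    have h1 : Spec.map ℓ (closedPoint (Localization.AtPrime 𝔫)) =
        Spec.map ψ (closedPoint (X.presheaf.stalk x)) := by
      apply PrimeSpectrum.ext
      exact Localization.AtPrime.under_maximalIdeal (I := 𝔫)
    have h2 : t (Spec.map ψ (closedPoint (X.presheaf.stalk x))) = x := by
      have h1 := congrArg (fun q : Spec (X.presheaf.stalk x) ⟶ X =>
        q (closedPoint (X.presheaf.stalk x))) hk
      have h2 : X.fromSpecStalk x (closedPoint (X.presheaf.stalk x)) =
        t (Spec.map ψ (closedPoint (X.presheaf.stalk x))) := h1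
      rw [← h2, Scheme.fromSpecStalk_closedPoint]
    have h3 : (Spec.map ℓ ≫ t) (closedPoint (Localization.AtPrime 𝔫)) =
      t (Spec.map ℓ (closedPoint (Localization.AtPrime 𝔫))) := rfl
    rw [h3, h1, h2]
  have : IsLocalRing (CommRingCat.of (Localization.AtPrime 𝔫)) :=
    (inferInstance : IsLocalRing (Localization.AtPrime 𝔫))
  obtain ⟨f, hf⟩ := factor_local (R := CommRingCat.of (Localization.AtPrime 𝔫))
    (Spec.map ℓ ≫ t) x hcl
  have hid : f ≫ ψ' = 𝟙 _ := by
    apply Spec.map_injective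
    rw [Spec.map_comp, Spec.map_id, ← cancel_mono (X.fromSpecStalk x), Category.assoc, hf,
      ← Category.assoc, ← Spec.map_comp, hℓψ, ← hk, Category.id_comp]
  have hid' : ψ'.hom (f.hom a) = a :=
    congrArg (fun q : X.presheaf.stalk x ⟶ X.presheaf.stalk x => q.hom a) hid
  obtain ⟨r, q, hrq⟩ := IsLocalization.exists_mk'_eq 𝔫.primeCompl (f.hom a)
  obtain ⟨P, hP⟩ := hR1 q.1
  obtain ⟨Q, hQ⟩ := hR1 r
  refine ⟨P, Q, ?_, ?_⟩
  · rw [hP]
    exact hun q
  · rw [hP, hQ, ← hid', ← hrq]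
    have h1 : ψ'.hom (IsLocalization.mk' (Localization.AtPrime 𝔫) r q) * ψ.hom q.1 = ψ.hom r := by
      rw [mul_comm]
      exact ((IsLocalization.lift_mk'_spec hun r _ q).mp rfl).symm
    exact h1

/-- the elementary computation in the local ring of the blow-up -/
theorem exists_ratio {B A D : Type} [CommRing B] [CommRing A] [IsLocalRing A] [CommRing D]
    [IsDomain D] [IsLocalRing B] (s : B →+* A) (c : A →+* D) (v h₀ : B) (a : A)
    (ha : a ∈ nonZeroDivisors A)
    (hm : maximalIdeal B = Ideal.span {v, h₀})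
    (hsp : (maximalIdeal B).map s = Ideal.span {a})
    (hc0 : c (s h₀) = 0) (hv : c (s v) ≠ 0) :
    ∃ g : A, s h₀ = s v * g ∧ c g = 0 ∧ s v ∈ nonZeroDivisors A := by
  rw [hm, Ideal.map_span, Set.image_pair] at hsp
  have h1 : s v ∈ Ideal.span {a} := by
    rw [← hsp]
    exact Ideal.subset_span (Or.inl rfl)
  have h2 : s h₀ ∈ Ideal.span {a} := by
    rw [← hsp]
    exact Ideal.subset_span (Or.inr rfl)
  have h3 : a ∈ Ideal.span {s v, s h₀} := by
    rw [hsp]
    exact Ideal.mem_span_singleton_self a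
  obtain ⟨v', hv'⟩ := Ideal.mem_span_singleton'.mp h1
  obtain ⟨h', hh'⟩ := Ideal.mem_span_singleton'.mp h2
  obtain ⟨α, β, hab⟩ := Ideal.mem_span_pair.mp h3
  have h4 : α * v' + β * h' = 1 := by
    have h5 : (α * v' + β * h' - 1) * a = 0 := by
      have : α * (v' * a) + β * (h' * a) = a := by rw [hv', hh', hab]
      linear_combination this
    have h6 := (mem_nonZeroDivisors_iff_right.mp ha) _ h5
    exact sub_eq_zero.mp h6
  have hca : c a ≠ 0 := by
    intro h
    apply hv
    rw [← hv', map_mul, h, mul_zero]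
  have hch : c h' = 0 := by
    have : c h' * c a = 0 := by rw [← map_mul, hh', hc0]
    exact (mul_eq_zero.mp this).resolve_right hca
  have hh'' : ¬ IsUnit h' := fun h => by
    have := h.map c
    rw [hch] at this
    exact not_isUnit_zero this
  have hv'' : IsUnit v' := by
    by_contra hnv
    have h7 : v' ∈ maximalIdeal A := (mem_maximalIdeal _).mpr hnv
    have h8 : h' ∈ maximalIdeal A := (mem_maximalIdeal _).mpr hh''
    have h9 : (1 : A) ∈ maximalIdeal A := by
      rw [← h4]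
      exact Ideal.add_mem _ (Ideal.mul_mem_left _ _ h7) (Ideal.mul_mem_left _ _ h8)
    exact (Ideal.ne_top_iff_one _).mp (maximalIdeal.isMaximal A).ne_top h9
  obtain ⟨u, hu⟩ := hv''
  refine ⟨h' * ↑u⁻¹, ?_, ?_, ?_⟩
  · rw [← hh', ← hv', ← hu]
    have : (↑u : A) * a * (h' * ↑u⁻¹) = h' * a * (↑u * ↑u⁻¹) := by ring
    rw [this, Units.mul_inv, mul_one]
  · rw [map_mul, hch, zero_mul]
  · rw [← hv', ← hu]
    exact mul_mem u.isUnit.mem_nonZeroDivisors ha

theorem ker_strict {X Y C : Scheme.{0}} [IsIntegral C] {σ : X ⟶ Y} {y : Y}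
    (hσ : IsBlowUpAt σ y) (ι : C ⟶ X) (z : C) (hz : σ (ι z) = y)
    (v h₀ : Y.presheaf.stalk (σ (ι z)))
    (hm : IsLocalRing.maximalIdeal (Y.presheaf.stalk (σ (ι z))) = Ideal.span {v, h₀})
    (hker : RingHom.ker ((ι.stalkMap z).hom.comp (σ.stalkMap (ι z)).hom) = Ideal.span {h₀})
    (hv : (ι.stalkMap z).hom ((σ.stalkMap (ι z)).hom v) ≠ 0) :
    ∃ g : X.presheaf.stalk (ι z), RingHom.ker (ι.stalkMap z).hom = Ideal.span {g} ∧
      (σ.stalkMap (ι z)).hom h₀ = (σ.stalkMap (ι z)).hom v * g := by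
  subst hz
  obtain ⟨a, ha, hsp⟩ := hσ.invertible (ι z) rfl
  have hc0 : (ι.stalkMap z).hom ((σ.stalkMap (ι z)).hom h₀) = 0 := by
    have : h₀ ∈ RingHom.ker ((ι.stalkMap z).hom.comp (σ.stalkMap (ι z)).hom) := by
      rw [hker]
      exact Ideal.mem_span_singleton_self h₀
    exact this
  obtain ⟨g, hg, hcg, hnz⟩ := exists_ratio (σ.stalkMap (ι z)).hom (ι.stalkMap z).hom v h₀ a ha hm
    hsp hc0 hv
  exact ⟨g, algebra_step (σ.stalkMap (ι z)).hom (ι.stalkMap z).hom v h₀ g hg hker hcg
    (frac_of_lift (ι z) hσ v h₀ g hm hg hnz), hg⟩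

end Pool.Agent.W488.BlowB
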